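import Pool.Agent.H295R3.D6.Stmts2

/-! Task ALS of project H295-D6 (with the corrected exponent). -/

set_option autoImplicit false

open Finset Filter

namespace Pool.Agent.H278R3.D6

open Pool.Agent.H295R3.D6

/-- the residues -/
noncomputable def II (k j l q : ℕ) : Finset ℕ :=
  (range l).image (fun x : ℕ => (((x : ℕ) : ZMod q) * (k : ZMod q)⁻¹).val) ∪
    (Ioo (-(l : ℤ)) l).image (fun t : ℤ => (((t : ℤ) : ZMod q) * (j : ZMod q)⁻¹).val)

theorem II_card (k j l q : ℕ) : (II k j l q).card ≤ 3 * l := by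
  unfold II
  refine (card_union_le _ _).trans ?_
  have h1 : ((range l).image (fun x : ℕ => (((x : ℕ) : ZMod q) * (k : ZMod q)⁻¹).val)).card ≤ l :=
    card_image_le.trans (by rw [card_range])
  have h2 : ((Ioo (-(l : ℤ)) l).image
      (fun t : ℤ => (((t : ℤ) : ZMod q) * (j : ZMod q)⁻¹).val)).card ≤ 2 * l := by
    refine card_image_le.trans ?_
    rw [Int.card_Ioo]
    omega
  omega

theorem II_sub (k j l q : ℕ) (hq : q.Prime) : II k j l q ⊆ range q := by
  have : NeZero q := ⟨hq.ne_zero⟩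
  intro r hr
  unfold II at hr
  rw [mem_union, mem_image, mem_image] at hr
  rw [mem_range]
  rcases hr with ⟨x, _, rfl⟩ | ⟨x, _, rfl⟩ <;> exact ZMod.val_lt _

theorem mem_II {k j l q p : ℕ} (hq : q.Prime) (hk : ¬ q ∣ k) (hj : ¬ q ∣ j)
    (h : (∃ x, x < l ∧ x ≤ k * p ∧ q ∣ k * p - x) ∨ hit q (j * p) l) :
    p % q ∈ II k j l q := by
  have : Fact q.Prime := ⟨hq⟩
  have hk0 : (k : ZMod q) ≠ 0 := by
    rwa [Ne, ZMod.natCast_eq_zero_iff]
  have hj0 : (j : ZMod q) ≠ 0 := by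
    rwa [Ne, ZMod.natCast_eq_zero_iff]
  unfold II
  rw [mem_union, mem_image, mem_image]
  rcases h with ⟨x, hx, hxk, hd⟩ | ⟨n, hn, h1, h2⟩
  · left
    refine ⟨x, mem_range.2 hx, ?_⟩
    have h3 : ((k * p - x : ℕ) : ZMod q) = 0 := (ZMod.natCast_eq_zero_iff _ _).2 hd
    rw [Nat.cast_sub hxk, Nat.cast_mul, sub_eq_zero] at h3
    rw [← h3, mul_comm, ← mul_assoc, inv_mul_cancel₀ hk0, one_mul, ZMod.val_natCast]
  · right
    refine ⟨(j * p : ℕ) - (n : ℤ), ?_, ?_⟩
    · rw [mem_Ioo]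
      constructor
      · push_cast
        have : (n : ℤ) < (j * p : ℕ) + l := by exact_mod_cast h2
        push_cast at this
        linarith
      · have : ((j * p : ℕ) : ℤ) < n + l := by exact_mod_cast h1
        linarith
    · have h3 : ((n : ℕ) : ZMod q) = 0 := (ZMod.natCast_eq_zero_iff _ _).2 hn
      push_cast
      rw [h3, sub_zero, mul_comm, ← mul_assoc, inv_mul_cancel₀ hj0, one_mul, ZMod.val_natCast]

/-- lower bound for binomial coefficients -/
theorem choose_lower (n r : ℕ) (h : 2 * r ≤ n) :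
    (n : ℝ) ^ r ≤ (2 * r : ℝ) ^ r * (n.choose r : ℝ) := by
  have h1 : (((n + 1 - r : ℕ) : ℝ)) ^ r ≤ (r.factorial : ℝ) * (n.choose r : ℝ) := by
    have := Nat.pow_le_choose (α := ℝ) r n
    rw [div_le_iff₀ (by positivity)] at this
    linarith
  have h2 : (n : ℝ) ≤ 2 * ((n + 1 - r : ℕ) : ℝ) := by
    have : n ≤ 2 * (n + 1 - r) := by omega
    exact_mod_cast this
  have h3 : (r.factorial : ℝ) ≤ (r : ℝ) ^ r := by
    exact_mod_cast Nat.factorial_le_pow r
  calc (n : ℝ) ^ r ≤ (2 * ((n + 1 - r : ℕ) : ℝ)) ^ r := pow_le_pow_left₀ (by positivity) h2 r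
    _ = 2 ^ r * ((n + 1 - r : ℕ) : ℝ) ^ r := by rw [mul_pow]
    _ ≤ 2 ^ r * ((r : ℝ) ^ r * (n.choose r : ℝ)) := by
        apply mul_le_mul_of_nonneg_left _ (by positivity)
        exact h1.trans (mul_le_mul_of_nonneg_right h3 (by positivity))
    _ = _ := by rw [mul_pow]; ring

/-- The large sieve bound with fixed parameters. -/
theorem core (hLS : TaskLS) {N k j l B r : ℕ} (P A : Finset ℕ)
    (hP : ∀ q ∈ P, q.Prime ∧ B < 2 * q ∧ q ≤ B ∧ ¬ q ∣ k ∧ ¬ q ∣ j)
    (hA : ∀ p ∈ A, 1 ≤ p ∧ p ≤ N ∧ ∀ q : ℕ, q.Prime → B < 2 * q → q ≤ B →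
      ((∃ x, x < l ∧ x ≤ k * p ∧ q ∣ k * p - x) ∨ hit q (j * p) l))
    (hlB : 12 * l ≤ B) (hB : 0 < B) (hr : ((B : ℝ) ^ r) ^ 2 ≤ N) :
    (A.card : ℝ) * (P.card.choose r : ℝ) ^ 2 ≤
      12 * N * (P.card.choose r : ℝ) * (24 * l / B) ^ r := by
  classical
  set Q : ℕ := Nat.sqrt N with hQ
  have hBR : (0 : ℝ) < B := by exact_mod_cast hB
  have hBQ : B ^ r ≤ Q := by
    rw [hQ, Nat.le_sqrt, ← sq]
    exact_mod_cast hr
  have hQN : (Q : ℝ) ^ 2 ≤ N := by
    have : Q ^ 2 ≤ N := by rw [sq]; exact Nat.sqrt_le N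
    exact_mod_cast this
  have hfrac : ∀ q ∈ P, ((II k j l q).card : ℝ) / q ≤ 6 * l / B := by
    intro q hq
    obtain ⟨hqp, h1, h2, _, _⟩ := hP q hq
    have hq0 : (0 : ℝ) < q := by exact_mod_cast hqp.pos
    rw [div_le_div_iff₀ hq0 hBR]
    have h3 : ((II k j l q).card : ℝ) ≤ 3 * l := by exact_mod_cast II_card k j l q
    have h4 : (B : ℝ) ≤ 2 * q := by exact_mod_cast h1.le
    have hl0 : (0 : ℝ) ≤ l := by positivity
    nlinarith
  have hhalf : 6 * (l : ℝ) / B ≤ 1 / 2 := by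
    rw [div_le_div_iff₀ hBR (by norm_num)]
    have : 12 * (l : ℝ) ≤ B := by exact_mod_cast hlB
    linarith
  have hls := hLS N Q P (II k j l) (P.powersetCard r) (fun _ => 1)
    (fun q hq => (hP q hq).1) (fun q hq => II_sub k j l q (hP q hq).1) (by
      intro s hs
      rw [mem_powersetCard] at hs
      refine ⟨hs.1, ?_⟩
      calc ∏ q ∈ s, q ≤ ∏ _q ∈ s, B := prod_le_prod' fun q hq => (hP q (hs.1 hq)).2.2.1
        _ = B ^ r := by rw [prod_const, hs.2]
        _ ≤ Q := hBQ)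
  -- right hand side
  have hR : ∑ s ∈ P.powersetCard r, (1 : ℝ) ^ 2 * ∏ q ∈ s, ((II k j l q).card : ℝ) / q ≤
      (P.card.choose r : ℝ) * (6 * l / B) ^ r := by
    calc ∑ s ∈ P.powersetCard r, (1 : ℝ) ^ 2 * ∏ q ∈ s, ((II k j l q).card : ℝ) / q
        ≤ ∑ _s ∈ P.powersetCard r, (6 * (l : ℝ) / B) ^ r := by
          refine sum_le_sum fun s hs => ?_
          rw [mem_powersetCard] at hs
          rw [one_pow, one_mul]
          calc ∏ q ∈ s, ((II k j l q).card : ℝ) / q ≤ ∏ _q ∈ s, (6 * (l : ℝ) / B) :=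
                prod_le_prod (fun q _ => by positivity) fun q hq => hfrac q (hs.1 hq)
            _ = _ := by rw [prod_const, hs.2]
      _ = _ := by rw [sum_const, card_powersetCard, nsmul_eq_mul]
  -- left hand side
  have hin : ∀ p ∈ A, (P.card.choose r : ℝ) * (1 / 2) ^ r ≤
      ∑ s ∈ P.powersetCard r, (1 : ℝ) * ∏ q ∈ s,
        ((if p % q ∈ II k j l q then (1 : ℝ) else 0) - ((II k j l q).card : ℝ) / q) := by
    intro p hp
    obtain ⟨_, _, h3⟩ := hA p hp
    calc (P.card.choose r : ℝ) * (1 / 2) ^ r = ∑ _s ∈ P.powersetCard r, (1 / 2 : ℝ) ^ r := by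
          rw [sum_const, card_powersetCard, nsmul_eq_mul]
      _ ≤ _ := by
          refine sum_le_sum fun s hs => ?_
          rw [mem_powersetCard] at hs
          rw [one_mul]
          calc (1 / 2 : ℝ) ^ r = ∏ _q ∈ s, (1 / 2 : ℝ) := by rw [prod_const, hs.2]
            _ ≤ _ := by
                refine prod_le_prod (fun q _ => by norm_num) fun q hq => ?_
                obtain ⟨hqp, h1, h2, h4, h5⟩ := hP q (hs.1 hq)
                rw [if_pos (mem_II hqp h4 h5 (h3 q hqp h1 h2))]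
                have := hfrac q (hs.1 hq)
                linarith
  have hL : (A.card : ℝ) * ((P.card.choose r : ℝ) * (1 / 2) ^ r) ^ 2 ≤
      ∑ n ∈ Icc 1 N, (∑ s ∈ P.powersetCard r, (1 : ℝ) * ∏ q ∈ s,
        ((if n % q ∈ II k j l q then (1 : ℝ) else 0) - ((II k j l q).card : ℝ) / q)) ^ 2 := by
    calc (A.card : ℝ) * ((P.card.choose r : ℝ) * (1 / 2) ^ r) ^ 2
        = ∑ _p ∈ A, ((P.card.choose r : ℝ) * (1 / 2) ^ r) ^ 2 := by
          rw [sum_const, nsmul_eq_mul]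
      _ ≤ ∑ p ∈ A, (∑ s ∈ P.powersetCard r, (1 : ℝ) * ∏ q ∈ s,
          ((if p % q ∈ II k j l q then (1 : ℝ) else 0) - ((II k j l q).card : ℝ) / q)) ^ 2 :=
          sum_le_sum fun p hp => pow_le_pow_left₀ (by positivity) (hin p hp) 2
      _ ≤ _ := by
          refine sum_le_sum_of_subset_of_nonneg ?_ fun n _ _ => sq_nonneg _
          intro p hp
          obtain ⟨h1, h2, _⟩ := hA p hp
          exact mem_Icc.2 ⟨h1, h2⟩
  have hfin : (A.card : ℝ) * ((P.card.choose r : ℝ) * (1 / 2) ^ r) ^ 2 ≤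
      12 * N * ((P.card.choose r : ℝ) * (6 * l / B) ^ r) := by
    refine hL.trans (hls.trans ?_)
    have hR0 : 0 ≤ ∑ s ∈ P.powersetCard r, (1 : ℝ) ^ 2 * ∏ q ∈ s, ((II k j l q).card : ℝ) / q :=
      sum_nonneg fun s _ => mul_nonneg (by norm_num)
        (prod_nonneg fun q _ => div_nonneg (Nat.cast_nonneg _) (Nat.cast_nonneg _))
    calc 6 * ((N : ℝ) + (Q : ℝ) ^ 2) *
          ∑ s ∈ P.powersetCard r, (1 : ℝ) ^ 2 * ∏ q ∈ s, ((II k j l q).card : ℝ) / q
        ≤ 12 * N * ∑ s ∈ P.powersetCard r, (1 : ℝ) ^ 2 * ∏ q ∈ s, ((II k j l q).card : ℝ) / q := by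
          have hQ2 : 6 * ((N : ℝ) + (Q : ℝ) ^ 2) ≤ 12 * N := by linarith only [hQN]
          exact mul_le_mul_of_nonneg_right hQ2 hR0
      _ ≤ _ := mul_le_mul_of_nonneg_left hR (by positivity)
  have h4 : (4 : ℝ) ^ r * ((1 / 2) ^ r) ^ 2 = 1 := by
    rw [← pow_mul, mul_comm r 2, pow_mul, ← mul_pow]
    norm_num
  generalize (P.card.choose r : ℝ) = C at hfin ⊢
  generalize (A.card : ℝ) = a at hfin ⊢
  generalize ((1 : ℝ) / 2) ^ r = u at hfin h4
  have h5 : (24 * (l : ℝ) / B) ^ r = 4 ^ r * (6 * l / B) ^ r := by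
    rw [← mul_pow]
    congr 1
    ring
  rw [h5]
  generalize (6 * (l : ℝ) / B) ^ r = v at hfin ⊢
  have h6 : (0 : ℝ) ≤ 4 ^ r := by positivity
  generalize (4 : ℝ) ^ r = w at h4 h6 ⊢
  have h7 := mul_le_mul_of_nonneg_left hfin h6
  calc a * C ^ 2 = (w * u ^ 2) * (a * C ^ 2) := by rw [h4, one_mul]
    _ = w * (a * (C * u) ^ 2) := by ring
    _ ≤ w * (12 * N * (C * v)) := h7
    _ = 12 * N * C * (w * v) := by ring

/-- the primes that divide `k j` -/
theorem sumlog {k j B : ℕ} (hk : 1 ≤ k) (hj : 1 ≤ j) :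
    ∑ q ∈ (Ioc (B / 2) B).filter (fun q => q.Prime ∧ (q ∣ k ∨ q ∣ j)), Real.log q ≤
      Real.log k + Real.log j := by
  have hk0 : (0 : ℝ) < k := by exact_mod_cast hk
  have hj0 : (0 : ℝ) < j := by exact_mod_cast hj
  rw [← Real.log_mul hk0.ne' hj0.ne', ← Real.log_prod (fun q hq => by
    rw [mem_filter] at hq
    exact_mod_cast hq.2.1.ne_zero)]
  have hd : ∏ q ∈ (Ioc (B / 2) B).filter (fun q => q.Prime ∧ (q ∣ k ∨ q ∣ j)), q ∣ k * j := by
    apply Finset.prod_primes_dvd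
    · intro q hq
      rw [mem_filter] at hq
      exact hq.2.1.prime
    · intro q hq
      rw [mem_filter] at hq
      rcases hq.2.2 with h | h
      · exact h.mul_right j
      · exact h.mul_left k
  have hle := Nat.le_of_dvd (Nat.mul_pos hk hj) hd
  have hpos : 0 < ∏ q ∈ (Ioc (B / 2) B).filter (fun q => q.Prime ∧ (q ∣ k ∨ q ∣ j)), q :=
    prod_pos fun q hq => by
      rw [mem_filter] at hq
      exact hq.2.1.pos
  have hpos' : (0 : ℝ) < ((∏ q ∈ (Ioc (B / 2) B).filter (fun q => q.Prime ∧ (q ∣ k ∨ q ∣ j)), q : ℕ) : ℝ) := by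
    exact_mod_cast hpos
  have hle' : ((∏ q ∈ (Ioc (B / 2) B).filter (fun q => q.Prime ∧ (q ∣ k ∨ q ∣ j)), q : ℕ) : ℝ) ≤
      (k * j : ℕ) := by exact_mod_cast hle
  rw [Nat.cast_prod] at hpos' hle'
  rw [Nat.cast_mul] at hle'
  exact Real.log_le_log hpos' hle'

theorem taskALS2 : TaskALS2 := by
  classical
  intro hLS hCh c hc
  obtain ⟨B₀, hB₀2, hB₀⟩ := hCh
  set lam : ℝ := min (1 / 2) (c / 8) with hlam
  have hlam0 : 0 < lam := lt_min (by norm_num) (by positivity)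
  have hlam1 : lam ≤ 1 / 2 := min_le_left _ _
  have hlam2 : lam ≤ c / 8 := min_le_right _ _
  refine ⟨lam / 2, by positivity, min (c / 24) (lam / 24), lt_min (by positivity) (by positivity), ?_⟩
  intro η hη hη1
  have hηc : η ≤ c / 24 := hη1.trans (min_le_left _ _)
  have hηl : η ≤ lam / 24 := hη1.trans (min_le_right _ _)
  have hlogt : Tendsto (fun N : ℕ => Real.log (N : ℝ)) atTop atTop :=
    Real.tendsto_log_atTop.comp tendsto_natCast_atTop_atTop
  have hsm : ∀ᶠ N : ℕ in atTop, 72 * Real.log (N : ℝ) ≤ (N : ℝ) ^ (lam / 8) := by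
    have h1 := (isLittleO_log_rpow_atTop (r := lam / 8) (by positivity)).bound
      (show (0 : ℝ) < 1 / 72 by norm_num)
    have h2 := tendsto_natCast_atTop_atTop (R := ℝ) |>.eventually h1
    filter_upwards [h2, eventually_ge_atTop 1] with N hN hN1
    have hN1' : (1 : ℝ) ≤ N := by exact_mod_cast hN1
    rw [Real.norm_of_nonneg (Real.log_nonneg hN1'), Real.norm_of_nonneg (by positivity)] at hN
    linarith
  filter_upwards [hsm, hlogt.eventually (eventually_ge_atTop (12 / c)),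
    hlogt.eventually (eventually_ge_atTop (24 ^ 4 / c)),
    hlogt.eventually (eventually_ge_atTop (B₀ / c)), eventually_ge_atTop 3]
    with N hN1 hN2 hN3 hN4 hN5 k j l B hk1 hk2 hj1 hj2 hl1 hl2 hB1 hB2
  have hN5' : (3 : ℝ) ≤ N := by exact_mod_cast hN5
  have hN0 : (0 : ℝ) < N := by linarith
  set L : ℝ := Real.log N with hL
  have hL0 : 0 < L := Real.log_pos (by linarith)
  have hl1' : (1 : ℝ) ≤ l := by exact_mod_cast hl1
  have hcL : c * L ≤ B := by
    refine le_trans ?_ hB1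
    nlinarith [mul_pos hc hL0]
  rw [div_le_iff₀ hc] at hN2 hN3 hN4
  have hBbig : (24 : ℝ) ^ 4 ≤ B := by linarith
  have hBB0 : B₀ ≤ B := by
    have : (B₀ : ℝ) ≤ B := by linarith
    exact_mod_cast this
  have hB0 : (0 : ℝ) < B := by linarith [show (0 : ℝ) < 24 ^ 4 by norm_num]
  have hBpos : 0 < B := by exact_mod_cast hB0
  have hlB : 12 * l ≤ B := by
    have : (12 : ℝ) * l ≤ B := by
      refine le_trans ?_ hB1
      nlinarith
    exact_mod_cast this
  have hlogB0 : 4 * Real.log 24 ≤ Real.log B := by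
    have := Real.log_le_log (by norm_num) hBbig
    rw [Real.log_pow] at this
    exact_mod_cast this
  have h24 : 0 < Real.log 24 := Real.log_pos (by norm_num)
  have hlogB : 0 < Real.log B := by linarith
  -- the primes
  set P : Finset ℕ := (Ioc (B / 2) B).filter (fun q => q.Prime ∧ ¬ (q ∣ k ∨ q ∣ j)) with hP
  have hPm : ∀ q ∈ P, q.Prime ∧ B < 2 * q ∧ q ≤ B ∧ ¬ q ∣ k ∧ ¬ q ∣ j := by
    intro q hq
    rw [hP, mem_filter, mem_Ioc] at hq
    obtain ⟨⟨h1, h2⟩, h3, h4⟩ := hq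
    push Not at h4
    exact ⟨h3, by omega, h2, h4.1, h4.2⟩
  have hsum : (B : ℝ) / 4 ≤ ∑ q ∈ P, Real.log q := by
    have h1 := hB₀ B hBB0
    have h2 := sumlog (B := B) hk1 hj1
    have h3 : ∑ q ∈ (Ioc (B / 2) B).filter Nat.Prime, Real.log (q : ℝ) =
        ∑ q ∈ (Ioc (B / 2) B).filter (fun q => q.Prime ∧ (q ∣ k ∨ q ∣ j)), Real.log q +
          ∑ q ∈ P, Real.log q := by
      rw [hP, ← filter_filter, ← filter_filter]
      exact (sum_filter_add_sum_filter_not _ _ _).symm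
    have h4 : Real.log k ≤ η * L := by
      rw [hL, ← Real.log_rpow hN0]
      exact Real.log_le_log (by exact_mod_cast hk1) hk2
    have h5 : Real.log j ≤ η * L := by
      rw [hL, ← Real.log_rpow hN0]
      exact Real.log_le_log (by exact_mod_cast hj1) hj2
    have h6 : 2 * (η * L) ≤ B / 12 := by
      have : η * L ≤ c / 24 * L := mul_le_mul_of_nonneg_right hηc hL0.le
      linarith
    linarith
  set n : ℕ := P.card with hn
  have hnB : (B : ℝ) / 4 ≤ n * Real.log B := by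
    refine hsum.trans ?_
    calc ∑ q ∈ P, Real.log q ≤ ∑ _q ∈ P, Real.log B := by
          refine sum_le_sum fun q hq => ?_
          obtain ⟨h1, _, h3, _⟩ := hPm q hq
          exact Real.log_le_log (by exact_mod_cast h1.pos) (by exact_mod_cast h3)
      _ = n * Real.log B := by rw [sum_const, nsmul_eq_mul]
  -- the number of factors
  set r : ℕ := ⌊lam * L / Real.log B⌋₊ with hr
  have hr1 : (r : ℝ) * Real.log B ≤ lam * L := by
    rw [← le_div_iff₀ hlogB]
    exact Nat.floor_le (by positivity)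
  have hr2 : lam * L < (r + 1) * Real.log B := by
    rw [← div_lt_iff₀ hlogB]
    exact Nat.lt_floor_add_one _
  have h2r : 2 * r ≤ n := by
    have h1 : 2 * (r : ℝ) * Real.log B ≤ n * Real.log B := by
      have h3 : lam * L ≤ c / 8 * L := mul_le_mul_of_nonneg_right hlam2 hL0.le
      nlinarith
    have h2 : 2 * (r : ℝ) ≤ n := le_of_mul_le_mul_right h1 hlogB
    exact_mod_cast h2
  have hBr : ((B : ℝ) ^ r) ^ 2 ≤ N := by
    rw [← pow_mul]
    rw [← Real.log_le_log_iff (by positivity) hN0, Real.log_pow]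
    push_cast
    nlinarith
  -- the set is finite
  set A0 : Set ℕ := {p : ℕ | 1 ≤ p ∧ p ≤ N ∧ ∀ q : ℕ, q.Prime → B < 2 * q → q ≤ B →
      ((∃ x, x < l ∧ x ≤ k * p ∧ q ∣ k * p - x) ∨ hit q (j * p) l)} with hA0
  have hfin : A0.Finite := (Set.finite_Icc 1 N).subset fun p hp => ⟨hp.1, hp.2.1⟩
  set A : Finset ℕ := hfin.toFinset with hA
  have hcard : A0.ncard = A.card := Set.ncard_eq_toFinset_card _ hfin
  rw [hcard]
  have hcore := core hLS (N := N) (k := k) (j := j) (l := l) (B := B) (r := r) P A hPm (by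
    intro p hp
    rw [hA, Set.Finite.mem_toFinset] at hp
    exact hp) hlB hBpos hBr
  rw [← hn] at hcore
  have hch0 : (0 : ℝ) < (n.choose r : ℝ) := by
    exact_mod_cast Nat.choose_pos (by omega)
  have hcore2 : (A.card : ℝ) * (n.choose r : ℝ) ≤ 12 * N * (24 * l / B) ^ r := by
    have : ((A.card : ℝ) * (n.choose r : ℝ)) * (n.choose r : ℝ) ≤
        (12 * N * (24 * l / B) ^ r) * (n.choose r : ℝ) := by
      calc ((A.card : ℝ) * (n.choose r : ℝ)) * (n.choose r : ℝ)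
          = (A.card : ℝ) * (n.choose r : ℝ) ^ 2 := by rw [sq]; ring
        _ ≤ 12 * N * (n.choose r : ℝ) * (24 * l / B) ^ r := hcore
        _ = _ := by ring
    exact le_of_mul_le_mul_right this hch0
  have hn0 : (0 : ℝ) < n := by
    by_contra hcon
    push Not at hcon
    have h1 : (n : ℝ) * Real.log B ≤ 0 := mul_nonpos_of_nonpos_of_nonneg hcon hlogB.le
    linarith only [h1, hnB, hB0]
  have hcore3 : (A.card : ℝ) * (n : ℝ) ^ r ≤ 12 * N * (48 * l * r / B) ^ r := by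
    calc (A.card : ℝ) * (n : ℝ) ^ r ≤ A.card * ((2 * r : ℝ) ^ r * (n.choose r : ℝ)) :=
          mul_le_mul_of_nonneg_left (choose_lower n r h2r) (by positivity)
      _ = (2 * r : ℝ) ^ r * (A.card * (n.choose r : ℝ)) := by ring
      _ ≤ (2 * r : ℝ) ^ r * (12 * N * (24 * l / B) ^ r) :=
          mul_le_mul_of_nonneg_left hcore2 (by positivity)
      _ = 12 * N * ((2 * r) * (24 * l / B)) ^ r := by rw [mul_pow (2 * (r : ℝ))]; ring
      _ = _ := by rw [show (2 * (r : ℝ)) * (24 * l / B) = 48 * l * r / B by ring]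
  have hbase : 48 * l * r / B ≤ 24 / B * (n : ℝ) := by
    -- 48 l r ≤ 24 n, i.e. 2 l r ≤ n
    rw [div_mul_eq_mul_div, div_le_div_iff_of_pos_right hB0]
    have h1 : 2 * (l : ℝ) * r * Real.log B ≤ n * Real.log B := by
      have h3 : (l : ℝ) * (r * Real.log B) ≤ l * (lam * L) :=
        mul_le_mul_of_nonneg_left hr1 (by positivity)
      have h4 : l * (lam * L) ≤ l * (c / 8 * L) := by
        apply mul_le_mul_of_nonneg_left _ (by positivity)
        exact mul_le_mul_of_nonneg_right hlam2 hL0.le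
      nlinarith
    have h2 : 2 * (l : ℝ) * r ≤ n := le_of_mul_le_mul_right h1 hlogB
    linarith
  have hcore4 : (A.card : ℝ) ≤ 12 * N * (24 / B) ^ r := by
    have h1 : (A.card : ℝ) * (n : ℝ) ^ r ≤ (12 * N * (24 / B) ^ r) * (n : ℝ) ^ r := by
      refine hcore3.trans ?_
      rw [mul_assoc (12 * (N : ℝ)), ← mul_pow]
      exact mul_le_mul_of_nonneg_left (pow_le_pow_left₀ (by positivity) hbase r) (by positivity)
    exact le_of_mul_le_mul_right h1 (by positivity)
  -- numerical bounds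
  have hBN : (N : ℝ) ^ lam ≤ (B : ℝ) ^ r * B := by
    rw [← pow_succ]
    rw [← Real.log_le_log_iff (by positivity) (by positivity), Real.log_rpow hN0, Real.log_pow]
    push_cast
    exact hr2.le
  have h24N : (24 : ℝ) ^ r ≤ (N : ℝ) ^ (lam / 4) := by
    rw [← Real.log_le_log_iff (by positivity) (by positivity), Real.log_rpow hN0, Real.log_pow]
    have : (r : ℝ) * (4 * Real.log 24) ≤ r * Real.log B :=
      mul_le_mul_of_nonneg_left hlogB0 (by positivity)
    linarith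
  have hBup : (B : ℝ) ≤ 6 * (N : ℝ) ^ (lam / 8) * L := by
    refine hB2.trans ?_
    have h1 : (N : ℝ) ^ (3 * η) ≤ (N : ℝ) ^ (lam / 8) :=
      Real.rpow_le_rpow_of_exponent_le (by linarith) (by linarith)
    have h2 : (l : ℝ) ≤ (N : ℝ) ^ (lam / 8) := hl2.trans h1
    have := mul_le_mul_of_nonneg_right h2 hL0.le
    nlinarith
  have hBr0 : (0 : ℝ) < (B : ℝ) ^ r := by positivity
  have hkey : (A.card : ℝ) * (B : ℝ) ^ r ≤ 12 * N * (24 : ℝ) ^ r := by
    have := mul_le_mul_of_nonneg_right hcore4 hBr0.le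
    refine this.trans (le_of_eq ?_)
    rw [div_pow]
    field_simp
  have hA0' : (0 : ℝ) ≤ A.card := by positivity
  have hNl0 : 0 < (N : ℝ) ^ lam := Real.rpow_pos_of_pos hN0 _
  have hfinal : (A.card : ℝ) * (N : ℝ) ^ lam ≤ (N : ℝ) ^ (1 - lam / 2) * (N : ℝ) ^ lam := by
    calc (A.card : ℝ) * (N : ℝ) ^ lam ≤ A.card * ((B : ℝ) ^ r * B) :=
          mul_le_mul_of_nonneg_left hBN hA0'
      _ = (A.card * (B : ℝ) ^ r) * B := by ring
      _ ≤ (12 * N * (24 : ℝ) ^ r) * B := mul_le_mul_of_nonneg_right hkey hB0.le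
      _ ≤ (12 * N * (N : ℝ) ^ (lam / 4)) * (6 * (N : ℝ) ^ (lam / 8) * L) := by
          apply mul_le_mul _ hBup hB0.le (by positivity)
          exact mul_le_mul_of_nonneg_left h24N (by positivity)
      _ = N * (N : ℝ) ^ (lam / 4) * (N : ℝ) ^ (lam / 8) * (72 * L) := by ring
      _ ≤ N * (N : ℝ) ^ (lam / 4) * (N : ℝ) ^ (lam / 8) * (N : ℝ) ^ (lam / 8) :=
          mul_le_mul_of_nonneg_left hN1 (by positivity)
      _ = (N : ℝ) ^ (1 - lam / 2) * (N : ℝ) ^ lam := by
          nth_rewrite 1 [← Real.rpow_one (N : ℝ)]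
          rw [← Real.rpow_add hN0, ← Real.rpow_add hN0, ← Real.rpow_add hN0, ← Real.rpow_add hN0]
          congr 1
          ring
  exact le_of_mul_le_mul_right hfinal hNl0

end Pool.Agent.H278R3.D6
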